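import Pool.Agent.MP_45e593_co.T3.Main

namespace Pool.Agent.MP_45e593_co.Old.ExactOffsetThree

open Pool.Agent.MP_45e593_co

theorem result (e s : ℕ) (h1 : Even s) (h2 : 8 ≤ s) (h3 : s ^ 2 ≤ 2 ^ e)
    (h4 : 2 ^ e + 5 ≤ (s + 1) ^ 2) :
    ramsey (SimpleGraph.cycleGraph 4) (completeBipartiteGraph (Fin 1) (Fin ((2 ^ e - 1) ^ 2 + 3))) =
      (2 ^ e - 1) ^ 2 + 2 ^ e + 3 :=
  T3.ramsey_exact e s h1 h2 h3 h4

end Pool.Agent.MP_45e593_co.Old.ExactOffsetThree
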