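import Pool.Agent.Mg.F45e593.G23630d

namespace Pool.Agent.MP_45e593_co.Old.ExactPowersOfTwo

open Pool.Agent.MP_45e593_co

theorem result (e : ℕ) (h3 : 3 ≤ e) :
    ramsey (SimpleGraph.cycleGraph 4) (completeBipartiteGraph (Fin 1) (Fin ((2 ^ e - 1) ^ 2 + 2))) =
      (2 ^ e - 1) ^ 2 + 2 ^ e + 2 :=
  ramsey_exact e h3

end Pool.Agent.MP_45e593_co.Old.ExactPowersOfTwo
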